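import Mathlib

/-!
# MP_abda90_al: a matricial cycle over `ℤ²` outside the split-conjugation space

For `Γ = ℤ² = ⟨s, t | s t s⁻¹ t⁻¹⟩`, with its presentation complex `Y` (the torus, a `K(Γ, 1)`),
the matrix `a = [[0, s], [-t, 0]]` satisfies `d₀* a d₀ = 0`, but it is not of the form
`d₁* x + y d₁`.
-/

set_option autoImplicit false

namespace Pool.Agent.Results.MP_abda90_al.TorusCounterexample

open Matrix

section General

variable {Γ : Type*} [Group Γ]

/-- The involution `(∑ a_γ γ)* = ∑ a_γ γ⁻¹` of the real group algebra. -/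
noncomputable def inv (x : MonoidAlgebra ℝ Γ) : MonoidAlgebra ℝ Γ :=
  MonoidAlgebra.mapDomain (fun g : Γ => g⁻¹) x

/-- The conjugate transpose `a*` of a matrix over `ℝΓ`: the transpose with the involution applied
to every entry. -/
noncomputable def conj {p q : Type*} (a : Matrix p q (MonoidAlgebra ℝ Γ)) :
    Matrix q p (MonoidAlgebra ℝ Γ) :=
  fun i j => inv (a j i)

/-- The matricial differential `a ↦ d* a d`. -/
noncomputable def matDiff {p q : Type*} [Fintype p] (d : Matrix p q (MonoidAlgebra ℝ Γ))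
    (a : Matrix p p (MonoidAlgebra ℝ Γ)) : Matrix q q (MonoidAlgebra ℝ Γ) :=
  conj d * a * d

/-- The split-conjugation space `{d* x + y d}`. -/
def splitConj {r p : Type*} [Fintype r] (d : Matrix r p (MonoidAlgebra ℝ Γ)) :
    Set (Matrix p p (MonoidAlgebra ℝ Γ)) :=
  {a | ∃ (x : Matrix r p (MonoidAlgebra ℝ Γ)) (y : Matrix p r (MonoidAlgebra ℝ Γ)),
    a = conj d * x + y * d}

/-- The Fox derivative with respect to the generator `j` of a word in the generators and their
inverses (the letter `(i, true)` is the generator `i`, the letter `(i, false)` its inverse), with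
values in the group algebra of the group `Γ` in which the generator `i` is `gen i`:
`∂(u w) = ∂ u + u ∂ w`, `∂_j x_i = δ_ij`, `∂_j x_i⁻¹ = - δ_ij x_i⁻¹`. -/
noncomputable def fox {α : Type*} [DecidableEq α] (gen : α → Γ) (j : α) :
    List (α × Bool) → MonoidAlgebra ℝ Γ
  | [] => 0
  | (i, true) :: w => (if i = j then 1 else 0) + MonoidAlgebra.single (gen i) 1 * fox gen j w
  | (i, false) :: w =>
      (if i = j then - MonoidAlgebra.single (gen i)⁻¹ 1 else 0) +
        MonoidAlgebra.single (gen i)⁻¹ 1 * fox gen j w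

/-- The boundary matrix `d₀` of a presentation complex: the column with entries `1 - s` over the
generators `s`. -/
noncomputable def bdry0 {α : Type*} (gen : α → Γ) : Matrix α Unit (MonoidAlgebra ℝ Γ) :=
  fun i _ => 1 - MonoidAlgebra.single (gen i) 1

/-- The boundary matrix `d₁` of a presentation complex: the matrix of Fox derivatives of the
relators. -/
noncomputable def bdry1 {α β : Type*} [DecidableEq α] (gen : α → Γ)
    (rel : β → List (α × Bool)) : Matrix β α (MonoidAlgebra ℝ Γ) :=
  fun r j => fox gen j (rel r)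

end General

/-- The group `ℤ²`, written multiplicatively. -/
abbrev Z2 : Type := Multiplicative ℤ × Multiplicative ℤ

/-- The generators `s = (1, 0)` and `t = (0, 1)` of `ℤ²`. -/
def gen : Fin 2 → Z2 := ![(Multiplicative.ofAdd 1, 1), (1, Multiplicative.ofAdd 1)]

/-- The relator `s t s⁻¹ t⁻¹`. -/
def rel : Unit → List (Fin 2 × Bool) := fun _ => [(0, true), (1, true), (0, false), (1, false)]

/-- The matrix `[[0, s], [-t, 0]]`. -/
noncomputable def cyc : Matrix (Fin 2) (Fin 2) (MonoidAlgebra ℝ Z2) :=
  !![0, MonoidAlgebra.single (gen 0) 1; - MonoidAlgebra.single (gen 1) 1, 0]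

theorem inv_sub {Γ : Type*} [Group Γ] (x y : MonoidAlgebra ℝ Γ) :
    inv (x - y) = inv x - inv y := by
  have h : inv (x - y) + inv y = inv x := by
    unfold inv
    rw [← MonoidAlgebra.mapDomain_add, sub_add_cancel]
  rw [← h, add_sub_cancel_right]

theorem inv_single {Γ : Type*} [Group Γ] (g : Γ) (r : ℝ) :
    inv (MonoidAlgebra.single g r) = MonoidAlgebra.single g⁻¹ r := by
  simp [inv]

theorem inv_one {Γ : Type*} [Group Γ] : inv (1 : MonoidAlgebra ℝ Γ) = 1 := by
  rw [MonoidAlgebra.one_def, inv_single]; simp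

theorem single_mul_inv {Γ : Type*} [Group Γ] (g : Γ) :
    (MonoidAlgebra.single g 1 : MonoidAlgebra ℝ Γ) * MonoidAlgebra.single g⁻¹ 1 = 1 := by
  rw [MonoidAlgebra.single_mul_single, mul_inv_cancel, mul_one, MonoidAlgebra.one_def]

theorem fox_zero : bdry1 gen rel () 0 = 1 - MonoidAlgebra.single (gen 1) 1 := by
  have h := single_mul_inv (gen 0)
  simp only [bdry1, rel, fox, if_true, Fin.isValue, mul_zero, add_zero, zero_add,
    show ¬ ((1 : Fin 2) = 0) by decide, if_false]
  linear_combination (-MonoidAlgebra.single (gen 1) 1) * h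

theorem fox_one : bdry1 gen rel () 1 = MonoidAlgebra.single (gen 0) 1 - 1 := by
  have h := single_mul_inv (gen 0)
  have h' := single_mul_inv (gen 1)
  simp only [bdry1, rel, fox, if_true, Fin.isValue, mul_zero, add_zero, zero_add,
    show ¬ ((0 : Fin 2) = 1) by decide, if_false]
  linear_combination (-(MonoidAlgebra.single (gen 0) 1 * MonoidAlgebra.single (gen 0)⁻¹ 1)) * h' - h

theorem single_ne_one : (MonoidAlgebra.single (gen 1) 1 : MonoidAlgebra ℝ Z2) ≠ 1 := by
  rw [MonoidAlgebra.one_def]
  intro h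
  rw [MonoidAlgebra.single_left_inj one_ne_zero] at h
  have h2 := congrArg Prod.snd h
  simp [gen] at h2

/-- **Disproof for `Γ = ℤ²`, `n = 1`.** With `d₀`, `d₁` the boundary matrices of the presentation
complex of `⟨s, t | s t s⁻¹ t⁻¹⟩`, the matrix `a = [[0, s], [-t, 0]]` satisfies
`d₀* a d₀ = 0`, but it is not in the split-conjugation space `{d₁* x + y d₁}`. -/
theorem result :
    bdry1 gen rel * bdry0 gen = 0 ∧ matDiff (bdry0 gen) cyc = 0 ∧
      cyc ∉ splitConj (bdry1 gen rel) := by
  have hS := single_mul_inv (gen 0)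
  have hT := single_mul_inv (gen 1)
  refine ⟨?_, ?_, ?_⟩
  · ext i j : 1
    rw [Matrix.mul_apply, Fin.sum_univ_two, fox_zero, fox_one]
    simp only [bdry0, Matrix.zero_apply]
    ring
  · ext i j : 1
    simp only [matDiff, conj, bdry0, cyc, Matrix.mul_apply, Fin.sum_univ_two, inv_sub, inv_one,
      inv_single, Matrix.zero_apply, Matrix.of_apply, Matrix.cons_val_zero, Matrix.cons_val_one,
      Matrix.cons_val', Matrix.cons_val_fin_one]
    generalize (MonoidAlgebra.single (gen 0) 1 : MonoidAlgebra ℝ Z2) = S at *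
    generalize (MonoidAlgebra.single (gen 1) 1 : MonoidAlgebra ℝ Z2) = T at *
    generalize (MonoidAlgebra.single (gen 0)⁻¹ 1 : MonoidAlgebra ℝ Z2) = S' at *
    generalize (MonoidAlgebra.single (gen 1)⁻¹ 1 : MonoidAlgebra ℝ Z2) = T' at *
    linear_combination (T - 1) * hS + (1 - S) * hT
  · rintro ⟨x, y, h⟩
    have h0 := congrFun (congrFun h 0) 0
    have h1 := congrFun (congrFun h 1) 0
    have c0 : conj (bdry1 gen rel) 0 () = 1 - MonoidAlgebra.single (gen 1)⁻¹ 1 := by
      show inv (bdry1 gen rel () 0) = _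
      rw [fox_zero, inv_sub, inv_one, inv_single]
    have c1 : conj (bdry1 gen rel) 1 () = MonoidAlgebra.single (gen 0)⁻¹ 1 - 1 := by
      show inv (bdry1 gen rel () 1) = _
      rw [fox_one, inv_sub, inv_one, inv_single]
    rw [Matrix.add_apply, Matrix.mul_apply, Matrix.mul_apply, Fintype.sum_unique,
      Fintype.sum_unique, show (default : Unit) = () from rfl, c0, fox_zero] at h0
    rw [Matrix.add_apply, Matrix.mul_apply, Matrix.mul_apply, Fintype.sum_unique,
      Fintype.sum_unique, show (default : Unit) = () from rfl, c1, fox_zero] at h1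
    have e0 : cyc 0 0 = 0 := rfl
    have e1 : cyc 1 0 = - MonoidAlgebra.single (gen 1) 1 := rfl
    rw [e0] at h0
    rw [e1] at h1
    set w : MonoidAlgebra ℝ Z2 := (1 - MonoidAlgebra.single (gen 0)⁻¹ 1) * y 0 () +
      (1 - MonoidAlgebra.single (gen 1)⁻¹ 1) * y 1 () with hw
    have hw1 : (1 - w) * (1 - MonoidAlgebra.single (gen 1) 1) = 0 := by
      rw [hw]
      linear_combination (1 - MonoidAlgebra.single (gen 0)⁻¹ 1) * h0 +
        (1 - MonoidAlgebra.single (gen 1)⁻¹ 1) * h1 - hT
    have hw2 : w = 1 := by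
      rcases mul_eq_zero.mp hw1 with h | h
      · exact (sub_eq_zero.mp h).symm
      · exact absurd (sub_eq_zero.mp h).symm single_ne_one
    -- the augmentation
    let ε : MonoidAlgebra ℝ Z2 →ₐ[ℝ] ℝ := MonoidAlgebra.lift ℝ ℝ Z2 1
    have hε : ∀ g : Z2, ε (MonoidAlgebra.single g 1) = 1 := by
      intro g
      simp [ε]
    have h3 := congrArg ε hw2
    rw [hw, map_add, map_mul, map_mul, map_sub, map_sub, hε, hε, map_one] at h3
    norm_num at h3

end Pool.Agent.Results.MP_abda90_al.TorusCounterexample
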